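import Mathlib

namespace Pool.Agent.Results.MP_47458b_co.LeastThreshold

open Finset

/-- number of out-neighbours of `x` in the digraph with arc relation `A` -/
noncomputable def outDeg {V : Type} (A : V → V → Prop) (x : V) : ℕ := {y | A x y}.ncard

/-- number of in-neighbours of `x` in the digraph with arc relation `A` -/
noncomputable def inDeg {V : Type} (A : V → V → Prop) (x : V) : ℕ := {y | A y x}.ncard

/-- `T` is an oriented tree with `k` edges, on the vertex set `Fin (k+1)`. -/
def IsOrientedTree (k : ℕ) (T : Fin (k+1) → Fin (k+1) → Prop) : Prop :=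
  (∀ a b, T a b → ¬ T b a) ∧ (SimpleGraph.fromRel T).IsTree

/-- the digraph `A` contains a copy of `T` -/
def Contains {V : Type} (A : V → V → Prop) {k : ℕ} (T : Fin (k+1) → Fin (k+1) → Prop) : Prop :=
  ∃ f : Fin (k+1) → V, Function.Injective f ∧ ∀ a b, T a b → A (f a) (f b)

/-- minimum semidegree of `A` greater than `t`, and a vertex of in- and out-degree at least `k` -/
def HostCond {V : Type} (A : V → V → Prop) (k : ℕ) (t : ℝ) : Prop :=
  (∀ x, t < (outDeg A x : ℝ) ∧ t < (inDeg A x : ℝ)) ∧ ∃ v, k ≤ outDeg A v ∧ k ≤ inDeg A v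

/-- `f` is admissible for digraphs -/
def AdmissibleDigraphs (f : ℕ → ℝ) : Prop :=
  ∀ (k : ℕ) (V : Type) [Finite V] (A : V → V → Prop), (∀ x, ¬ A x x) → HostCond A k (f k) →
    ∀ T : Fin (k+1) → Fin (k+1) → Prop, IsOrientedTree k T → Contains A T

/-- `f` is admissible for oriented graphs -/
def AdmissibleOriented (f : ℕ → ℝ) : Prop :=
  ∀ (k : ℕ) (V : Type) [Finite V] (A : V → V → Prop), (∀ x y, A x y → ¬ A y x) → HostCond A k (f k) →
    ∀ T : Fin (k+1) → Fin (k+1) → Prop, IsOrientedTree k T → Contains A T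

theorem pig {V ι : Type} [Fintype ι] {n : ℕ} (f : Fin n → V) (hf : Function.Injective f)
    (Y : Finset (Fin n)) (g : ι → V) (h : ∀ b ∈ Y, ∃ i, g i = f b) : Y.card ≤ Fintype.card ι := by
  classical
  by_cases hY : Y.Nonempty
  · obtain ⟨b0, hb0⟩ := hY
    obtain ⟨i0, _⟩ := h b0 hb0
    let e : Fin n → ι := fun b => if hb : b ∈ Y then (h b hb).choose else i0
    have he : ∀ b, b ∈ Y → g (e b) = f b := by
      intro b hb
      have : e b = (h b hb).choose := by simp [e, hb]
      rw [this]; exact (h b hb).choose_spec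
    calc Y.card ≤ (Finset.univ : Finset ι).card := by
          apply Finset.card_le_card_of_injOn e
          · intro b _; simp
          · intro a ha b hb hab
            apply hf
            rw [← he a ha, ← he b hb, hab]
      _ = Fintype.card ι := Finset.card_univ
  · rw [Finset.not_nonempty_iff_eq_empty.1 hY]; simp

theorem le_ncard {V ι : Type} [Finite V] [Fintype ι] (S : Set V) (g : ι → V) (hg : Function.Injective g)
    (h : ∀ i, g i ∈ S) : Fintype.card ι ≤ S.ncard := by
  classical
  have h1 : (Set.range g).ncard = Fintype.card ι := by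
    rw [← Set.image_univ, Set.ncard_image_of_injective _ hg, Set.ncard_univ, Nat.card_eq_fintype_card]
  rw [← h1]
  apply Set.ncard_le_ncard _ (Set.toFinite S)
  rintro _ ⟨i, rfl⟩
  exact h i

/-- the tree relation -/
def TR (k s : ℕ) (a b : Fin (k+1)) : Prop :=
  (1 ≤ a.val ∧ a.val ≤ s) ∧ (b.val = 0 ∨ (s < b.val ∧ (b.val - 1) % s + 1 = a.val))

theorem isTree_of_parent (k : ℕ) (G : SimpleGraph (Fin (k+1))) (par : Fin (k+1) → Fin (k+1))
    (hlt : ∀ b, b ≠ 0 → par b < b)
    (hadj : ∀ a b, G.Adj a b ↔ (a ≠ 0 ∧ par a = b) ∨ (b ≠ 0 ∧ par b = a)) : G.IsTree := by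
  classical
  rw [SimpleGraph.isTree_iff_connected_and_card]
  constructor
  · have h0 : ∀ n : ℕ, ∀ b : Fin (k+1), b.val = n → G.Reachable 0 b := by
      intro n
      induction n using Nat.strong_induction_on with
      | _ n ih =>
        intro b hb
        by_cases hb0 : b = 0
        · subst hb0; exact SimpleGraph.Reachable.refl _
        · have h1 := hlt b hb0
          have h2 := ih (par b).val (by rw [← hb]; exact h1) (par b) rfl
          exact h2.trans (SimpleGraph.Adj.reachable ((hadj _ _).2 (Or.inr ⟨hb0, rfl⟩)))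
    have : Nonempty (Fin (k+1)) := ⟨0⟩
    refine SimpleGraph.Connected.mk ?_
    intro a b
    exact (h0 _ a rfl).symm.trans (h0 _ b rfl)
  · have hbij : Nat.card G.edgeSet = Nat.card {b : Fin (k+1) // b ≠ 0} := by
      symm
      refine Nat.card_congr (Equiv.ofBijective
        (fun b : {b : Fin (k+1) // b ≠ 0} =>
          (⟨s(b.1, par b.1), (SimpleGraph.mem_edgeSet G).2 ((hadj _ _).2 (Or.inl ⟨b.2, rfl⟩))⟩ : G.edgeSet)) ⟨?_, ?_⟩)
      · rintro ⟨a, ha⟩ ⟨b, hb⟩ hab
        have h := congrArg Subtype.val hab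
        simp only [Sym2.eq_iff] at h
        rcases h with ⟨h1, _⟩ | ⟨h1, h2⟩
        · exact Subtype.ext h1
        · exfalso
          have h3 := hlt a ha
          have h4 := hlt b hb
          rw [h2] at h3
          rw [← h1] at h4
          exact absurd h3 (not_lt.2 h4.le)
      · rintro ⟨e, he⟩
        induction e using Sym2.ind with
        | _ x y =>
          have hxy : G.Adj x y := he
          rcases (hadj _ _).1 hxy with ⟨hx, h⟩ | ⟨hy, h⟩
          · refine ⟨⟨x, hx⟩, ?_⟩
            apply Subtype.ext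
            simp [h]
          · refine ⟨⟨y, hy⟩, ?_⟩
            apply Subtype.ext
            simp only [h]
            exact Sym2.eq_swap
    rw [hbij]
    simp [Nat.card_eq_fintype_card, Fintype.card_subtype_compl]

theorem TR_asymm (k s : ℕ) (a b : Fin (k+1)) (h : TR k s a b) : ¬ TR k s b a := by
  rintro ⟨⟨h1, h2⟩, _⟩
  rcases h.2 with h3 | ⟨h3, _⟩ <;> omega

theorem TR_isTree (k s : ℕ) (hs : 1 ≤ s) (hsk : s ≤ k) : (SimpleGraph.fromRel (TR k s)).IsTree := by
  have hmod : ∀ n, (n % s) < s := fun n => Nat.mod_lt _ (by omega)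
  have hbd : ∀ b : Fin (k+1), (b.val - 1) % s + 1 < k + 1 := by
    intro b; have := hmod (b.val - 1); omega
  refine isTree_of_parent k _ (fun b => if b.val ≤ s then 0 else ⟨(b.val-1)%s+1, hbd b⟩) ?_ ?_
  · intro b hb
    have hb' : b.val ≠ 0 := by
      intro h; apply hb; exact Fin.ext h
    by_cases h : b.val ≤ s
    · simp only [h, if_true]
      exact Fin.pos_iff_ne_zero.2 hb
    · simp only [h, if_false]
      rw [Fin.lt_def]
      have := hmod (b.val - 1)
      simp; omega
  · intro a b
    rw [SimpleGraph.fromRel_adj]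
    constructor
    · rintro ⟨hne, h | h⟩
      · rcases h with ⟨⟨h1, h2⟩, h3 | ⟨h3, h4⟩⟩
        · left
          refine ⟨?_, ?_⟩
          · intro h; rw [h] at h1; simp at h1
          · simp only [h2, if_true]; exact Fin.ext (by simp [h3])
        · right
          refine ⟨?_, ?_⟩
          · intro h; rw [h] at h3; simp at h3
          · have : ¬ b.val ≤ s := by omega
            simp only [this, if_false]; exact Fin.ext h4
      · rcases h with ⟨⟨h1, h2⟩, h3 | ⟨h3, h4⟩⟩
        · right
          refine ⟨?_, ?_⟩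
          · intro h; rw [h] at h1; simp at h1
          · simp only [h2, if_true]; exact Fin.ext (by simp [h3])
        · left
          refine ⟨?_, ?_⟩
          · intro h; rw [h] at h3; simp at h3
          · have : ¬ a.val ≤ s := by omega
            simp only [this, if_false]; exact Fin.ext h4
    · have key : ∀ a b : Fin (k+1), a ≠ 0 → (if a.val ≤ s then (0 : Fin (k+1)) else ⟨(a.val-1)%s+1, hbd a⟩) = b →
          a ≠ b ∧ (TR k s a b ∨ TR k s b a) := by
        intro a b ha h
        have ha' : a.val ≠ 0 := by intro h; apply ha; exact Fin.ext h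
        by_cases h2 : a.val ≤ s
        · simp only [h2, if_true] at h
          subst h
          refine ⟨ha, Or.inl ⟨⟨by omega, h2⟩, Or.inl (by simp)⟩⟩
        · simp only [h2, if_false] at h
          subst h
          have := hmod (a.val - 1)
          refine ⟨?_, Or.inr ⟨⟨by simp, by simp; omega⟩, Or.inr ⟨by omega, rfl⟩⟩⟩
          intro h3
          have h4 := congrArg Fin.val h3
          simp at h4
          omega
      rintro (⟨h1, h2⟩ | ⟨h1, h2⟩)
      · exact key a b h1 h2
      · obtain ⟨h3, h4⟩ := key b a h1 h2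
        exact ⟨h3.symm, h4.symm⟩

/-- leaves at a -/
theorem card_leaves (k s : ℕ) (hs : 1 ≤ s) (a : ℕ) :
    (univ.filter (fun b : Fin (k+1) => s < b.val ∧ (b.val - 1) % s + 1 = a)).card ≤ (k-1)/s := by
  classical
  have : (Finset.Icc 1 ((k-1)/s)).card = (k-1)/s := by simp
  rw [← this]
  apply Finset.card_le_card_of_injOn (fun b : Fin (k+1) => (b.val - 1)/s)
  · intro b hb
    simp only [coe_filter, mem_univ, true_and, Set.mem_ofPred_eq] at hb
    simp only [coe_Icc, Set.mem_Icc]
    constructor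
    · rw [Nat.le_div_iff_mul_le (by omega)]; omega
    · apply Nat.div_le_div_right; omega
  · intro b hb c hc h
    simp only [coe_filter, mem_univ, true_and, Set.mem_ofPred_eq] at hb hc
    have h1 := Nat.div_add_mod (b.val - 1) s
    have h2 := Nat.div_add_mod (c.val - 1) s
    have h3 : (b.val - 1) % s = (c.val - 1) % s := by omega
    simp only at h
    rw [h, h3] at h1
    apply Fin.ext
    omega

theorem card_sinks (k s : ℕ) :
    k + 1 ≤ (univ.filter (fun b : Fin (k+1) => b.val = 0 ∨ s < b.val)).card + s := by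
  classical
  have h1 : (univ.filter (fun b : Fin (k+1) => ¬ (b.val = 0 ∨ s < b.val))).card ≤ s := by
    have : (Finset.Icc 1 s).card = s := by simp
    conv_rhs => rw [← this]
    apply Finset.card_le_card_of_injOn (fun b : Fin (k+1) => b.val)
    · intro b hb
      simp only [coe_filter, mem_univ, true_and, Set.mem_ofPred_eq] at hb
      simp only [coe_Icc, Set.mem_Icc]
      omega
    · intro b _ c _ h
      exact Fin.ext h
  have h2 := Finset.card_filter_add_card_filter_not (s := (univ : Finset (Fin (k+1)))) (fun b : Fin (k+1) => b.val = 0 ∨ s < b.val)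
  rw [Finset.card_univ, Fintype.card_fin] at h2
  omega

theorem card_sinks' (k s : ℕ) :
    k ≤ (univ.filter (fun b : Fin (k+1) => s < b.val)).card + s := by
  classical
  have h1 := card_sinks k s
  have h2 : (univ.filter (fun b : Fin (k+1) => b.val = 0 ∨ s < b.val)) ⊆
      insert 0 (univ.filter (fun b : Fin (k+1) => s < b.val)) := by
    intro b hb
    simp only [mem_filter, mem_univ, true_and, mem_insert] at hb ⊢
    rcases hb with h | h
    · left; exact Fin.ext h
    · right; exact h
  have h3 := Finset.card_le_card h2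
  have h4 := Finset.card_insert_le (0 : Fin (k+1)) (univ.filter (fun b : Fin (k+1) => s < b.val))
  omega


/-- the number of sinks that are not leaves at `a` -/
theorem card_sinks_diff (k s : ℕ) (hs : 1 ≤ s) (a : ℕ) :
    k + 1 ≤ ((univ.filter (fun b : Fin (k+1) => b.val = 0 ∨ s < b.val)) \
      (univ.filter (fun b : Fin (k+1) => s < b.val ∧ (b.val - 1) % s + 1 = a))).card + s + (k-1)/s := by
  classical
  have h1 := card_sinks k s
  have h2 := card_leaves k s hs a
  have h3 := Finset.le_card_sdiff (univ.filter (fun b : Fin (k+1) => s < b.val ∧ (b.val - 1) % s + 1 = a))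
    (univ.filter (fun b : Fin (k+1) => b.val = 0 ∨ s < b.val))
  omega

/-- the source above a sink `b ≠ 0` -/
def src (k s : ℕ) (hs : 1 ≤ s) (hsk : s ≤ k) (b : Fin (k+1)) : Fin (k+1) :=
  ⟨(b.val - 1) % s + 1, by have := Nat.mod_lt (b.val - 1) (show 0 < s by omega); omega⟩

theorem src_TR (k s : ℕ) (hs : 1 ≤ s) (hsk : s ≤ k) (b : Fin (k+1)) (hb : s < b.val) :
    TR k s (src k s hs hsk b) b := by
  have := Nat.mod_lt (b.val - 1) (show 0 < s by omega)
  exact ⟨⟨by simp [src], by simp [src]; omega⟩, Or.inr ⟨hb, rfl⟩⟩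

theorem src_TR0 (k s : ℕ) (hs : 1 ≤ s) (hsk : s ≤ k) (b : Fin (k+1)) :
    TR k s (src k s hs hsk b) 0 := by
  have := Nat.mod_lt (b.val - 1) (show 0 < s by omega)
  exact ⟨⟨by simp [src], by simp [src]; omega⟩, Or.inl rfl⟩

/-- vertex set of the oriented host -/
inductive OV (g m : ℕ) : Type
  | v : OV g m
  | P (c : Fin g) (i : Fin (m-1)) (j : Fin m) : OV g m
  | Q (c : Fin g) (j : Fin m) (l : Fin m) : OV g m
  | S (c : Fin g) (j : Fin m) (l : Fin m) : OV g m

/-- arcs of the oriented host -/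
def OA (g m : ℕ) : OV g m → OV g m → Prop
  | .P c _ j, .Q c' j' _ => c = c' ∧ j = j'
  | .Q c j _, .S c' j' _ => c = c' ∧ j = j'
  | .S c j _, .P c' i _ => (j.val = 0 ∧ c'.val = 0 ∧ i.val = 0) ∨ (j.val = i.val + 1 ∧ c = c')
  | .S c j _, .v => j.val = 0 ∨ (j.val = 1 ∧ c.val = 0)
  | .v, .Q _ _ _ => True
  | _, _ => False

instance (g m : ℕ) : Finite (OV g m) := by
  let F : OV g m → Option ((Fin g × Fin (m-1) × Fin m) ⊕ ((Fin g × Fin m × Fin m) ⊕ (Fin g × Fin m × Fin m))) :=
    fun x => match x with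
      | .v => none
      | .P c i j => some (Sum.inl (c, i, j))
      | .Q c j l => some (Sum.inr (Sum.inl (c, j, l)))
      | .S c j l => some (Sum.inr (Sum.inr (c, j, l)))
  apply Finite.of_injective F
  intro x y h
  cases x <;> cases y <;> simp_all [F]

theorem OA_asymm (g m : ℕ) (x y : OV g m) (h : OA g m x y) : ¬ OA g m y x := by
  cases x <;> cases y <;> simp_all [OA]

theorem OA_deg (g m : ℕ) (hm : 2 ≤ m) (hg : 1 ≤ g) (x : OV g m) :
    m ≤ outDeg (OA g m) x ∧ m ≤ inDeg (OA g m) x := by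
  have hcard : Fintype.card (Fin m) = m := Fintype.card_fin m
  have hopt : Fintype.card (Option (Fin (m-1))) = m := by simp; omega
  cases x with
  | v =>
    constructor
    · conv_lhs => rw [← hcard]
      exact le_ncard _ (fun l : Fin m => OV.Q ⟨0, by omega⟩ ⟨0, by omega⟩ l) (by intro a b h; simpa using h)
        (by intro i; simp [OA])
    · conv_lhs => rw [← hcard]
      exact le_ncard _ (fun l : Fin m => OV.S ⟨0, by omega⟩ ⟨0, by omega⟩ l) (by intro a b h; simpa using h)
        (by intro i; simp [OA])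
  | P c i j =>
    constructor
    · conv_lhs => rw [← hcard]
      exact le_ncard _ (fun l : Fin m => OV.Q c j l) (by intro a b h; simpa using h)
        (by intro i; simp [OA])
    · conv_lhs => rw [← hcard]
      exact le_ncard _ (fun l : Fin m => OV.S c ⟨i.val + 1, by omega⟩ l) (by intro a b h; simpa using h)
        (by intro i; simp [OA])
  | Q c j l =>
    constructor
    · conv_lhs => rw [← hcard]
      exact le_ncard _ (fun l : Fin m => OV.S c j l) (by intro a b h; simpa using h)
        (by intro i; simp [OA])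
    · conv_lhs => rw [← hopt]
      exact le_ncard _ (fun l : Option (Fin (m-1)) => match l with
          | none => OV.v
          | some i => OV.P c i j) (by
            intro a b h
            cases a <;> cases b <;> simp_all)
        (by intro i; cases i <;> simp [OA])
  | S c j l =>
    constructor
    · conv_lhs => rw [← hcard]
      by_cases hj : j.val = 0
      · exact le_ncard _ (fun l : Fin m => OV.P ⟨0, by omega⟩ ⟨0, by omega⟩ l) (by intro a b h; simpa using h)
          (by intro i; simp [OA, hj])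
      · exact le_ncard _ (fun l : Fin m => OV.P c ⟨j.val - 1, by omega⟩ l) (by intro a b h; simpa using h)
          (by intro i; simp [OA]; omega)
    · conv_lhs => rw [← hcard]
      exact le_ncard _ (fun l : Fin m => OV.Q c j l) (by intro a b h; simpa using h)
        (by intro i; simp [OA])

theorem OA_v (g m k : ℕ) (hm : 2 ≤ m) (hk : k ≤ g * m) :
    k ≤ outDeg (OA g m) .v ∧ k ≤ inDeg (OA g m) .v := by
  have hcard : Fintype.card (Fin g × Fin m) = g * m := by simp
  constructor
  · refine hk.trans ?_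
    conv_lhs => rw [← hcard]
    exact le_ncard _ (fun l : Fin g × Fin m => OV.Q l.1 ⟨0, by omega⟩ l.2)
        (by rintro ⟨a1, a2⟩ ⟨b1, b2⟩ h; simpa using h)
        (by intro i; simp [OA])
  · refine hk.trans ?_
    conv_lhs => rw [← hcard]
    exact le_ncard _ (fun l : Fin g × Fin m => OV.S l.1 ⟨0, by omega⟩ l.2)
        (by rintro ⟨a1, a2⟩ ⟨b1, b2⟩ h; simpa using h)
        (by intro i; simp [OA])

theorem OA_free (g m k s : ℕ) (hs : 1 ≤ s) (hsk : s < k) (hm : m + s + (k-1)/s = k)
    (f : Fin (k+1) → OV g m) (hf : Function.Injective f)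
    (hT : ∀ a b, TR k s a b → OA g m (f a) (f b)) : False := by
  classical
  have hq : 1 ≤ (k-1)/s := by rw [Nat.le_div_iff_mul_le (by omega)]; omega
  have hsk' : s ≤ k := hsk.le
  have hS0 := card_sinks k s
  have hS1 := card_sinks' k s
  have hcard : Fintype.card (Fin m) = m := Fintype.card_fin m
  have hopt : Fintype.card (Option (Fin m)) = m + 1 := by simp
  rcases h0 : f 0 with _ | ⟨c, i, j⟩ | ⟨c, j, l⟩ | ⟨c, j, l⟩
  · -- y = v
    have := pig f hf (univ.filter (fun b : Fin (k+1) => s < b.val))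
      (fun l : Fin m => if h : 0 < g ∧ 0 < m - 1 then OV.P ⟨0, h.1⟩ ⟨0, h.2⟩ l else OV.v) ?_
    · omega
    · intro b hb
      simp only [mem_filter, mem_univ, true_and] at hb
      have h1 := hT _ _ (src_TR0 k s hs hsk' b)
      have h2 := hT _ _ (src_TR k s hs hsk' b hb)
      rw [h0] at h1
      have hbne : f b ≠ OV.v := by
        rw [← h0]; intro h; have := hf h; rw [this] at hb; simp at hb
      rcases h3 : f (src k s hs hsk' b) with _ | ⟨c, i, j⟩ | ⟨c, j, l⟩ | ⟨c, j, l⟩ <;> rw [h3] at h1 h2 <;> simp [OA] at h1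
      rcases h4 : f b with _ | ⟨c', i', j'⟩ | ⟨c', j', l'⟩ | ⟨c', j', l'⟩ <;> rw [h4] at h2 <;> simp [OA] at h2
      · exact absurd h4 hbne
      · have e1 : c'.val = 0 := by
          rcases h2 with h2 | h2
          · exact h2.2.1
          · rcases h1 with h1 | h1
            · omega
            · rw [← h2.2]; exact h1.2
        have e2 : i'.val = 0 := by omega
        refine ⟨j', ?_⟩
        have hg0 : 0 < g := c'.pos
        have hm0 : 0 < m - 1 := i'.pos
        simp only [hg0, hm0, and_self, dite_true]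
        congr 1
        · exact Fin.ext e1.symm
        · exact Fin.ext e2.symm
  · -- y = P c i j
    have := pig f hf (univ.filter (fun b : Fin (k+1) => b.val = 0 ∨ s < b.val))
      (fun l : Option (Fin m) => match l with
        | none => OV.v
        | some l => OV.P c i l) ?_
    · omega
    · intro b hb
      simp only [mem_filter, mem_univ, true_and] at hb
      rcases hb with hb | hb
      · refine ⟨some j, ?_⟩
        have : b = 0 := Fin.ext hb
        rw [this, h0]
      · have h1 := hT _ _ (src_TR0 k s hs hsk' b)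
        have h2 := hT _ _ (src_TR k s hs hsk' b hb)
        rw [h0] at h1
        rcases h3 : f (src k s hs hsk' b) with _ | ⟨c2, i2, j2⟩ | ⟨c2, j2, l2⟩ | ⟨c2, j2, l2⟩ <;> rw [h3] at h1 h2 <;> simp [OA] at h1
        rcases h4 : f b with _ | ⟨c', i', j'⟩ | ⟨c', j', l'⟩ | ⟨c', j', l'⟩ <;> rw [h4] at h2 <;> simp [OA] at h2
        · exact ⟨none, rfl⟩
        · refine ⟨some j', ?_⟩
          simp only
          have e1 : c = c' := by
            rcases h1 with h1 | h1 <;> rcases h2 with h2 | h2
            · apply Fin.ext; omega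
            · omega
            · omega
            · rw [← h1.2, ← h2.2]
          have e2 : i = i' := by
            apply Fin.ext; omega
          rw [e1, e2]
  · -- y = Q c j l
    by_cases hex : ∃ a, f a = OV.v
    · obtain ⟨a0, ha0⟩ := hex
      have hS2 := card_sinks_diff k s hs a0.val
      have := pig f hf ((univ.filter (fun b : Fin (k+1) => b.val = 0 ∨ s < b.val)) \
          (univ.filter (fun b : Fin (k+1) => s < b.val ∧ (b.val - 1) % s + 1 = a0.val)))
        (fun l : Fin m => OV.Q c j l) ?_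
      · omega
      · intro b hb
        simp only [mem_filter, mem_univ, true_and, mem_sdiff, not_and] at hb
        obtain ⟨hb, hb2⟩ := hb
        rcases hb with hb | hb
        · refine ⟨l, ?_⟩
          have : b = 0 := Fin.ext hb
          rw [this, h0]
        · have h1 := hT _ _ (src_TR0 k s hs hsk' b)
          have h2 := hT _ _ (src_TR k s hs hsk' b hb)
          rw [h0] at h1
          have hne : f (src k s hs hsk' b) ≠ OV.v := by
            intro h
            rw [← ha0] at h
            have := hf h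
            apply hb2 hb
            rw [← this]; rfl
          rcases h3 : f (src k s hs hsk' b) with _ | ⟨c2, i2, j2⟩ | ⟨c2, j2, l2⟩ | ⟨c2, j2, l2⟩ <;> rw [h3] at h1 h2 <;> simp [OA] at h1
          · exact absurd h3 hne
          · rcases h4 : f b with _ | ⟨c', i', j'⟩ | ⟨c', j', l'⟩ | ⟨c', j', l'⟩ <;> rw [h4] at h2 <;> simp [OA] at h2
            refine ⟨l', ?_⟩
            rw [← h1.1, ← h1.2, h2.1, h2.2]
    · have := pig f hf (univ.filter (fun b : Fin (k+1) => b.val = 0 ∨ s < b.val))
        (fun l : Fin m => OV.Q c j l) ?_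
      · omega
      · intro b hb
        simp only [mem_filter, mem_univ, true_and] at hb
        rcases hb with hb | hb
        · refine ⟨l, ?_⟩
          have : b = 0 := Fin.ext hb
          rw [this, h0]
        · have h1 := hT _ _ (src_TR0 k s hs hsk' b)
          have h2 := hT _ _ (src_TR k s hs hsk' b hb)
          rw [h0] at h1
          have hne : f (src k s hs hsk' b) ≠ OV.v := fun h => hex ⟨_, h⟩
          rcases h3 : f (src k s hs hsk' b) with _ | ⟨c2, i2, j2⟩ | ⟨c2, j2, l2⟩ | ⟨c2, j2, l2⟩ <;> rw [h3] at h1 h2 <;> simp [OA] at h1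
          · exact absurd h3 hne
          · rcases h4 : f b with _ | ⟨c', i', j'⟩ | ⟨c', j', l'⟩ | ⟨c', j', l'⟩ <;> rw [h4] at h2 <;> simp [OA] at h2
            refine ⟨l', ?_⟩
            rw [← h1.1, ← h1.2, h2.1, h2.2]
  · -- y = S c j l
    have := pig f hf (univ.filter (fun b : Fin (k+1) => b.val = 0 ∨ s < b.val))
      (fun l : Fin m => OV.S c j l) ?_
    · omega
    · intro b hb
      simp only [mem_filter, mem_univ, true_and] at hb
      rcases hb with hb | hb
      · refine ⟨l, ?_⟩
        have : b = 0 := Fin.ext hb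
        rw [this, h0]
      · have h1 := hT _ _ (src_TR0 k s hs hsk' b)
        have h2 := hT _ _ (src_TR k s hs hsk' b hb)
        rw [h0] at h1
        rcases h3 : f (src k s hs hsk' b) with _ | ⟨c2, i2, j2⟩ | ⟨c2, j2, l2⟩ | ⟨c2, j2, l2⟩ <;> rw [h3] at h1 h2 <;> simp [OA] at h1
        rcases h4 : f b with _ | ⟨c', i', j'⟩ | ⟨c', j', l'⟩ | ⟨c', j', l'⟩ <;> rw [h4] at h2 <;> simp [OA] at h2
        refine ⟨l', ?_⟩
        rw [← h1.1, ← h1.2, h2.1, h2.2]


/-- vertex set of the digraph host -/
inductive DV (m t : ℕ) : Type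
  | v : DV m t
  | r1 (i : Fin (m-1)) : DV m t
  | r2 (i : Fin m) : DV m t
  | c (j : Fin (t+1)) (i : Fin m) : DV m t
  | w (j : Fin (t+1)) : DV m t

/-- arcs of the digraph host -/
def DA (m t : ℕ) : DV m t → DV m t → Prop
  | .r2 _, .r1 _ => True
  | .r2 _, .v => True
  | .w j, .r1 _ => j.val < t
  | .w j, .v => j.val < t
  | .r1 _, .r2 _ => True
  | .w j, .r2 _ => j.val = t
  | .c j i, .c j' i' => j = j' ∧ i ≠ i'
  | .c j _, .w j' => j = j'
  | .v, .c _ _ => True
  | _, _ => False

instance (m t : ℕ) : Finite (DV m t) := by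
  let F : DV m t → Option (Fin (m-1) ⊕ (Fin m ⊕ ((Fin (t+1) × Fin m) ⊕ Fin (t+1)))) :=
    fun x => match x with
      | .v => none
      | .r1 i => some (Sum.inl i)
      | .r2 i => some (Sum.inr (Sum.inl i))
      | .c j i => some (Sum.inr (Sum.inr (Sum.inl (j, i))))
      | .w j => some (Sum.inr (Sum.inr (Sum.inr j)))
  apply Finite.of_injective F
  intro x y h
  cases x <;> cases y <;> simp_all [F]

theorem DA_irrefl (m t : ℕ) (x : DV m t) : ¬ DA m t x x := by
  cases x <;> simp [DA]

theorem DA_deg (m t : ℕ) (hm : 1 ≤ m) (x : DV m t) :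
    m ≤ outDeg (DA m t) x ∧ m ≤ inDeg (DA m t) x := by
  have hcard : Fintype.card (Fin m) = m := Fintype.card_fin m
  have hopt : Fintype.card (Option (Fin (m-1))) = m := by simp; omega
  cases x with
  | v =>
    constructor
    · conv_lhs => rw [← hcard]
      exact le_ncard _ (fun l : Fin m => DV.c ⟨0, by omega⟩ l) (by intro a b h; simpa using h)
        (by intro i; simp [DA])
    · conv_lhs => rw [← hcard]
      exact le_ncard _ (fun l : Fin m => DV.r2 l) (by intro a b h; simpa using h)
        (by intro i; simp [DA])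
  | r1 i =>
    constructor
    · conv_lhs => rw [← hcard]
      exact le_ncard _ (fun l : Fin m => DV.r2 l) (by intro a b h; simpa using h)
        (by intro i; simp [DA])
    · conv_lhs => rw [← hcard]
      exact le_ncard _ (fun l : Fin m => DV.r2 l) (by intro a b h; simpa using h)
        (by intro i; simp [DA])
  | r2 i =>
    constructor
    · conv_lhs => rw [← hopt]
      exact le_ncard _ (fun l : Option (Fin (m-1)) => match l with
          | none => DV.v
          | some i => DV.r1 i) (by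
            intro a b h
            cases a <;> cases b <;> simp_all)
        (by intro i; cases i <;> simp [DA])
    · conv_lhs => rw [← hopt]
      exact le_ncard _ (fun l : Option (Fin (m-1)) => match l with
          | none => DV.w ⟨t, by omega⟩
          | some i => DV.r1 i) (by
            intro a b h
            cases a <;> cases b <;> simp_all)
        (by intro i; cases i <;> simp [DA])
  | c j i =>
    constructor
    · conv_lhs => rw [← hcard]
      refine le_ncard _ (fun l : Fin m => if l = i then DV.w j else DV.c j l) ?_ ?_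
      · intro a b h
        by_cases ha : a = i <;> by_cases hb : b = i <;> simp_all
      · intro l
        by_cases ha : l = i
        · simp [DA, ha]
        · simp [DA, ha]; exact fun h => ha h.symm
    · conv_lhs => rw [← hcard]
      refine le_ncard _ (fun l : Fin m => if l = i then DV.v else DV.c j l) ?_ ?_
      · intro a b h
        by_cases ha : a = i <;> by_cases hb : b = i <;> simp_all
      · intro l
        by_cases ha : l = i <;> simp [DA, ha]
  | w j =>
    constructor
    · by_cases hj : j.val = t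
      · conv_lhs => rw [← hcard]
        exact le_ncard _ (fun l : Fin m => DV.r2 l) (by intro a b h; simpa using h)
          (by intro i; simp [DA, hj])
      · have hj' : j.val < t := by omega
        conv_lhs => rw [← hopt]
        exact le_ncard _ (fun l : Option (Fin (m-1)) => match l with
            | none => DV.v
            | some i => DV.r1 i) (by
              intro a b h
              cases a <;> cases b <;> simp_all)
          (by intro i; cases i <;> simp [DA, hj'])
    · conv_lhs => rw [← hcard]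
      exact le_ncard _ (fun l : Fin m => DV.c j l) (by intro a b h; simpa using h)
        (by intro i; simp [DA])

theorem DA_v (m t : ℕ) (hm : 1 ≤ m) :
    m + t ≤ outDeg (DA m t) .v ∧ m + t ≤ inDeg (DA m t) .v := by
  constructor
  · have hcard : Fintype.card (Fin (t+1) × Fin m) = (t+1) * m := by simp
    have h1 : m + t ≤ (t+1) * m := by nlinarith
    refine h1.trans ?_
    conv_lhs => rw [← hcard]
    exact le_ncard _ (fun l : Fin (t+1) × Fin m => DV.c l.1 l.2)
        (by rintro ⟨a1, a2⟩ ⟨b1, b2⟩ h; simpa using h)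
        (by intro i; simp [DA])
  · have hcard : Fintype.card (Fin m ⊕ Fin t) = m + t := by simp
    conv_lhs => rw [← hcard]
    exact le_ncard _ (fun l : Fin m ⊕ Fin t => match l with
          | Sum.inl i => DV.r2 i
          | Sum.inr j => DV.w ⟨j.val, by omega⟩)
        (by
          rintro (a | a) (b | b) h <;> simp_all [Fin.ext_iff])
        (by rintro (i | i) <;> simp [DA])

theorem card_all_diff (k s : ℕ) (hs : 1 ≤ s) (a : Fin (k+1)) :
    k ≤ ((univ : Finset (Fin (k+1))) \
      (insert a (univ.filter (fun b : Fin (k+1) => s < b.val ∧ (b.val - 1) % s + 1 = a.val)))).card + (k-1)/s := by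
  classical
  have h2 := card_leaves k s hs a.val
  have h3 := Finset.le_card_sdiff (insert a (univ.filter (fun b : Fin (k+1) => s < b.val ∧ (b.val - 1) % s + 1 = a.val)))
    (univ : Finset (Fin (k+1)))
  have h4 := Finset.card_insert_le a (univ.filter (fun b : Fin (k+1) => s < b.val ∧ (b.val - 1) % s + 1 = a.val))
  rw [Finset.card_univ, Fintype.card_fin] at h3
  omega

theorem DA_free (m t k s : ℕ) (hm : 1 ≤ m) (hs : 1 ≤ s) (hst : s ≤ t) (hk : k = m + t) (hq : (k-1)/s + 2 ≤ t)
    (f : Fin (k+1) → DV m t) (hf : Function.Injective f)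
    (hT : ∀ a b, TR k s a b → DA m t (f a) (f b)) : False := by
  classical
  have hsk' : s ≤ k := by omega
  have hS0 := card_sinks k s
  have hS1 := card_sinks' k s
  have hcard : Fintype.card (Fin m) = m := Fintype.card_fin m
  have hcard1 : Fintype.card (Fin (m-1)) = m-1 := Fintype.card_fin _
  have hopt : Fintype.card (Option (Fin m)) = m + 1 := by simp
  have hopt1 : Fintype.card (Option (Fin (m-1))) = m := by simp; omega
  rcases h0 : f 0 with _ | ⟨i⟩ | ⟨i⟩ | ⟨j, i⟩ | ⟨j⟩
  · -- y = v
    have := pig f hf (univ.filter (fun b : Fin (k+1) => s < b.val))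
      (fun l : Fin (m-1) => DV.r1 l) ?_
    · omega
    · intro b hb
      simp only [mem_filter, mem_univ, true_and] at hb
      have h1 := hT _ _ (src_TR0 k s hs hsk' b)
      have h2 := hT _ _ (src_TR k s hs hsk' b hb)
      rw [h0] at h1
      have hbne : f b ≠ DV.v := by
        rw [← h0]; intro h; have := hf h; rw [this] at hb; simp at hb
      rcases h3 : f (src k s hs hsk' b) with _ | ⟨i1⟩ | ⟨i1⟩ | ⟨j1, i1⟩ | ⟨j1⟩ <;> rw [h3] at h1 h2 <;> simp [DA] at h1
      · rcases h4 : f b with _ | ⟨i2⟩ | ⟨i2⟩ | ⟨j2, i2⟩ | ⟨j2⟩ <;> rw [h4] at h2 <;> simp [DA] at h2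
        · exact absurd h4 hbne
        · exact ⟨i2, rfl⟩
      · rcases h4 : f b with _ | ⟨i2⟩ | ⟨i2⟩ | ⟨j2, i2⟩ | ⟨j2⟩ <;> rw [h4] at h2 <;> simp [DA] at h2
        · exact absurd h4 hbne
        · exact ⟨i2, rfl⟩
        · omega
  · -- y = r1 i
    have := pig f hf (univ.filter (fun b : Fin (k+1) => b.val = 0 ∨ s < b.val))
      (fun l : Option (Fin (m-1)) => match l with
        | none => DV.v
        | some l => DV.r1 l) ?_
    · omega
    · intro b hb
      simp only [mem_filter, mem_univ, true_and] at hb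
      rcases hb with hb | hb
      · refine ⟨some i, ?_⟩
        have : b = 0 := Fin.ext hb
        rw [this, h0]
      · have h1 := hT _ _ (src_TR0 k s hs hsk' b)
        have h2 := hT _ _ (src_TR k s hs hsk' b hb)
        rw [h0] at h1
        rcases h3 : f (src k s hs hsk' b) with _ | ⟨i1⟩ | ⟨i1⟩ | ⟨j1, i1⟩ | ⟨j1⟩ <;> rw [h3] at h1 h2 <;> simp [DA] at h1
        · rcases h4 : f b with _ | ⟨i2⟩ | ⟨i2⟩ | ⟨j2, i2⟩ | ⟨j2⟩ <;> rw [h4] at h2 <;> simp [DA] at h2
          · exact ⟨none, rfl⟩
          · exact ⟨some i2, rfl⟩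
        · rcases h4 : f b with _ | ⟨i2⟩ | ⟨i2⟩ | ⟨j2, i2⟩ | ⟨j2⟩ <;> rw [h4] at h2 <;> simp [DA] at h2
          · exact ⟨none, rfl⟩
          · exact ⟨some i2, rfl⟩
          · omega
  · -- y = r2 i
    have := pig f hf (univ.filter (fun b : Fin (k+1) => b.val = 0 ∨ s < b.val))
      (fun l : Fin m => DV.r2 l) ?_
    · omega
    · intro b hb
      simp only [mem_filter, mem_univ, true_and] at hb
      rcases hb with hb | hb
      · refine ⟨i, ?_⟩
        have : b = 0 := Fin.ext hb
        rw [this, h0]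
      · have h1 := hT _ _ (src_TR0 k s hs hsk' b)
        have h2 := hT _ _ (src_TR k s hs hsk' b hb)
        rw [h0] at h1
        rcases h3 : f (src k s hs hsk' b) with _ | ⟨i1⟩ | ⟨i1⟩ | ⟨j1, i1⟩ | ⟨j1⟩ <;> rw [h3] at h1 h2 <;> simp [DA] at h1
        · rcases h4 : f b with _ | ⟨i2⟩ | ⟨i2⟩ | ⟨j2, i2⟩ | ⟨j2⟩ <;> rw [h4] at h2 <;> simp [DA] at h2
          exact ⟨i2, rfl⟩
        · rcases h4 : f b with _ | ⟨i2⟩ | ⟨i2⟩ | ⟨j2, i2⟩ | ⟨j2⟩ <;> rw [h4] at h2 <;> simp [DA] at h2
          · omega
          · omega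
          · exact ⟨i2, rfl⟩
  · -- y = c j i
    have hclaim : ∀ b : Fin (k+1), (∀ a, f a = DV.v → b ≠ a ∧ ¬ (s < b.val ∧ (b.val - 1) % s + 1 = a.val)) →
        ∃ l : Option (Fin m), (match l with
          | none => DV.w j
          | some l => DV.c j l) = f b := by
      intro b hb
      by_cases hb0 : b.val = 0
      · refine ⟨some i, ?_⟩
        have : b = 0 := Fin.ext hb0
        rw [this, h0]
      · by_cases hbs : s < b.val
        · have h1 := hT _ _ (src_TR0 k s hs hsk' b)
          have h2 := hT _ _ (src_TR k s hs hsk' b hbs)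
          rw [h0] at h1
          rcases h3 : f (src k s hs hsk' b) with _ | ⟨i1⟩ | ⟨i1⟩ | ⟨j1, i1⟩ | ⟨j1⟩ <;> rw [h3] at h1 h2 <;> simp [DA] at h1
          · exact absurd ⟨hbs, rfl⟩ (hb _ h3).2
          · rcases h4 : f b with _ | ⟨i2⟩ | ⟨i2⟩ | ⟨j2, i2⟩ | ⟨j2⟩ <;> rw [h4] at h2 <;> simp [DA] at h2
            · exact ⟨some i2, by rw [← h2.1, h1.1]⟩
            · exact ⟨none, by rw [← h2, h1.1]⟩
        · have h1 := hT b 0 ⟨⟨by omega, by omega⟩, Or.inl rfl⟩
          rw [h0] at h1
          rcases h3 : f b with _ | ⟨i1⟩ | ⟨i1⟩ | ⟨j1, i1⟩ | ⟨j1⟩ <;> rw [h3] at h1 <;> simp [DA] at h1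
          · exact absurd rfl (hb _ h3).1
          · exact ⟨some i1, by rw [h1.1]⟩
    by_cases hex : ∃ a, f a = DV.v
    · obtain ⟨a0, ha0⟩ := hex
      have hS2 := card_all_diff k s hs a0
      have := pig f hf ((univ : Finset (Fin (k+1))) \
          (insert a0 (univ.filter (fun b : Fin (k+1) => s < b.val ∧ (b.val - 1) % s + 1 = a0.val))))
        (fun l : Option (Fin m) => match l with
          | none => DV.w j
          | some l => DV.c j l) ?_
      · omega
      · intro b hb
        simp only [mem_filter, mem_univ, true_and, mem_sdiff, mem_insert, not_or] at hb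
        apply hclaim
        intro a ha
        have : a = a0 := hf (ha.trans ha0.symm)
        subst this
        exact hb
    · have := pig f hf (univ : Finset (Fin (k+1)))
        (fun l : Option (Fin m) => match l with
          | none => DV.w j
          | some l => DV.c j l) ?_
      · rw [Finset.card_univ, Fintype.card_fin] at this
        omega
      · intro b _
        apply hclaim
        intro a ha
        exact absurd ⟨a, ha⟩ hex
  · -- y = w j
    have := pig f hf (univ : Finset (Fin (k+1)))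
      (fun l : Option (Fin m) => match l with
          | none => DV.w j
          | some l => DV.c j l) ?_
    · rw [Finset.card_univ, Fintype.card_fin] at this
      omega
    · intro b _
      by_cases hb0 : b.val = 0
      · refine ⟨none, ?_⟩
        have : b = 0 := Fin.ext hb0
        rw [this, h0]
      · by_cases hbs : s < b.val
        · have h1 := hT _ _ (src_TR0 k s hs hsk' b)
          have h2 := hT _ _ (src_TR k s hs hsk' b hbs)
          rw [h0] at h1
          rcases h3 : f (src k s hs hsk' b) with _ | ⟨i1⟩ | ⟨i1⟩ | ⟨j1, i1⟩ | ⟨j1⟩ <;> rw [h3] at h1 h2 <;> simp [DA] at h1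
          rcases h4 : f b with _ | ⟨i2⟩ | ⟨i2⟩ | ⟨j2, i2⟩ | ⟨j2⟩ <;> rw [h4] at h2 <;> simp [DA] at h2
          · exact ⟨some i2, by rw [← h2.1, h1]⟩
          · exact ⟨none, by rw [← h2, h1]⟩
        · have h1 := hT b 0 ⟨⟨by omega, by omega⟩, Or.inl rfl⟩
          rw [h0] at h1
          rcases h3 : f b with _ | ⟨i1⟩ | ⟨i1⟩ | ⟨j1, i1⟩ | ⟨j1⟩ <;> rw [h3] at h1 <;> simp [DA] at h1
          exact ⟨some i1, by rw [h1]⟩

theorem exists_new {W V : Type} [Fintype W] [Finite V] (S : Set V) (f : W → V)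
    (c : W) (hc : f c ∉ S) (hcard : Fintype.card W ≤ S.ncard) : ∃ y ∈ S, ∀ x, f x ≠ y := by
  classical
  by_contra hcon
  push Not at hcon
  have h1 : S ⊆ f '' (({c}ᶜ : Set W)) := by
    intro y hy
    obtain ⟨x, hx⟩ := hcon y hy
    refine ⟨x, ?_, hx⟩
    intro hxc
    simp only [Set.mem_singleton_iff] at hxc
    rw [← hx, hxc] at hy
    exact hc hy
  have h2 : S.ncard ≤ (({c}ᶜ : Set W)).ncard :=
    (Set.ncard_le_ncard h1 (Set.toFinite _)).trans (Set.ncard_image_le (Set.toFinite _))
  have h3 := Set.ncard_add_ncard_compl ({c} : Set W)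
  rw [Set.ncard_singleton, Nat.card_eq_fintype_card] at h3
  omega

theorem extend {W V : Type} [Fintype W] [Finite V] (T : W → W → Prop)
    (hT : ∀ a b, T a b → ¬ T b a) (a c : W) (hac : a ≠ c)
    (huniq : ∀ x, x ≠ a → (T a x ∨ T x a) → x = c) (hadj : T a c ∨ T c a)
    (A : V → V → Prop) (hA : ∀ x, ¬ A x x)
    (f' : ({a}ᶜ : Set W) → V) (hinj : Function.Injective f')
    (hpres : ∀ x y : ({a}ᶜ : Set W), T x.1 y.1 → A (f' x) (f' y))
    (hdeg : ∀ hc : c ∈ ({a}ᶜ : Set W), Fintype.card W ≤ outDeg A (f' ⟨c, hc⟩) + 1 ∧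
      Fintype.card W ≤ inDeg A (f' ⟨c, hc⟩) + 1) :
    ∃ f : W → V, Function.Injective f ∧ (∀ x : ({a}ᶜ : Set W), f x.1 = f' x) ∧
      ∀ x y, T x y → A (f x) (f y) := by
  classical
  have hc : c ∈ ({a}ᶜ : Set W) := by simpa using hac.symm
  obtain ⟨hd1, hd2⟩ := hdeg hc
  have hcardW' : Fintype.card ({a}ᶜ : Set W) + 1 = Fintype.card W := by
    rw [Fintype.card_compl_set]
    simp
    have : 0 < Fintype.card W := Fintype.card_pos_iff.2 ⟨a⟩
    omega
  -- a new vertex for a
  have hnew : ∃ y : V, (∀ x, f' x ≠ y) ∧ (T a c → A y (f' ⟨c, hc⟩)) ∧ (T c a → A (f' ⟨c, hc⟩) y) := by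
    rcases hadj with h | h
    · obtain ⟨y, hy, hy2⟩ := exists_new {y | A y (f' ⟨c, hc⟩)} f' ⟨c, hc⟩ (hA _) (by
        unfold inDeg at hd2; omega)
      exact ⟨y, hy2, fun _ => hy, fun h' => absurd h' (hT _ _ h)⟩
    · obtain ⟨y, hy, hy2⟩ := exists_new {y | A (f' ⟨c, hc⟩) y} f' ⟨c, hc⟩ (hA _) (by
        unfold outDeg at hd1; omega)
      exact ⟨y, hy2, fun h' => absurd h' (hT _ _ h), fun _ => hy⟩
  obtain ⟨y, hy1, hy2, hy3⟩ := hnew
  refine ⟨fun x => if hx : x = a then y else f' ⟨x, by simpa using hx⟩, ?_, ?_, ?_⟩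
  · intro x z hxz
    by_cases hx : x = a <;> by_cases hz : z = a
    · rw [hx, hz]
    · simp only [hx, hz, dite_true, dite_false] at hxz
      exact absurd hxz.symm (hy1 _)
    · simp only [hx, hz, dite_true, dite_false] at hxz
      exact absurd hxz (hy1 _)
    · simp only [hx, hz, dite_false] at hxz
      have := hinj hxz
      simpa using this
  · rintro ⟨x, hx⟩
    have hx' : x ≠ a := by simpa using hx
    simp [hx']
  · intro x z hxz
    by_cases hx : x = a <;> by_cases hz : z = a
    · subst hx; subst hz; exact absurd hxz (hT _ _ hxz)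
    · subst hx
      have hzc := huniq z hz (Or.inl hxz)
      subst hzc
      simp only [hz, dite_true, dite_false]
      exact hy2 hxz
    · subst hz
      have hxc := huniq x hx (Or.inr hxz)
      subst hxc
      simp only [hx, dite_true, dite_false]
      exact hy3 hxz
    · simp only [hx, hz, dite_false]
      exact hpres _ _ hxz

theorem fromRel_induce {W : Type} (T : W → W → Prop) (s : Set W) :
    SimpleGraph.fromRel (fun x y : s => T x.1 y.1) = (SimpleGraph.fromRel T).induce s := by
  ext x y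
  simp [SimpleGraph.fromRel_adj, SimpleGraph.comap_adj, Subtype.ext_iff]

/-- leaf data -/
theorem leaf_data {W : Type} [Fintype W] (T : W → W → Prop)
    (hTree : (SimpleGraph.fromRel T).IsTree) (p : W) (hW : 2 ≤ Fintype.card W) :
    ∃ a c : W, a ≠ p ∧ a ≠ c ∧ (∀ x, x ≠ a → (T a x ∨ T x a) → x = c) ∧ (T a c ∨ T c a) ∧
      (SimpleGraph.fromRel (fun x y : ({a}ᶜ : Set W) => T x.1 y.1)).IsTree := by
  classical
  have : Nontrivial W := Fintype.one_lt_card_iff_nontrivial.1 hW
  obtain ⟨u, w, huw, hu, hw⟩ := hTree.exists_ne_and_degree_eq_one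
  have key : ∀ a, a ≠ p → (SimpleGraph.fromRel T).degree a = 1 →
    ∃ a c : W, a ≠ p ∧ a ≠ c ∧ (∀ x, x ≠ a → (T a x ∨ T x a) → x = c) ∧ (T a c ∨ T c a) ∧
      (SimpleGraph.fromRel (fun x y : ({a}ᶜ : Set W) => T x.1 y.1)).IsTree := by
    intro a hap hdeg
    obtain ⟨c, hc, hcu⟩ := SimpleGraph.degree_eq_one_iff_existsUnique_adj.1 hdeg
    rw [SimpleGraph.fromRel_adj] at hc
    refine ⟨a, c, hap, hc.1, ?_, hc.2, ?_⟩
    · intro x hx h
      exact hcu x (by
        change (SimpleGraph.fromRel T).Adj a x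
        rw [SimpleGraph.fromRel_adj]; exact ⟨hx.symm, h⟩)
    · rw [fromRel_induce]
      exact ⟨hTree.connected.induce_compl_singleton_of_degree_eq_one hdeg, hTree.isAcyclic.induce _⟩
  by_cases hup : u = p
  · exact key w (by rw [← hup]; exact huw.symm) hw
  · exact key u hup hu

theorem greedy : ∀ (n : ℕ) (W : Type) [Fintype W] (T : W → W → Prop)
    (_ : ∀ a b, T a b → ¬ T b a) (_ : (SimpleGraph.fromRel T).IsTree) (_ : Fintype.card W = n)
    (V : Type) [Finite V] (A : V → V → Prop) (_ : ∀ x, ¬ A x x)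
    (_ : ∀ x, n ≤ outDeg A x + 1 ∧ n ≤ inDeg A x + 1) (p : W) (v : V),
    ∃ f : W → V, Function.Injective f ∧ f p = v ∧ ∀ a b, T a b → A (f a) (f b) := by
  intro n
  induction n with
  | zero =>
    intro W _ T _ _ hcard V _ A _ _ p v
    exact ((Fintype.card_eq_zero_iff.1 hcard).false p).elim
  | succ n ih =>
    intro W _ T hT hTree hcard V _ A hA hdeg p v
    classical
    by_cases hn : n = 0
    · subst hn
      have hsub : Subsingleton W := Fintype.card_le_one_iff_subsingleton.1 (by omega)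
      refine ⟨fun _ => v, fun _ _ _ => Subsingleton.elim _ _, rfl, ?_⟩
      intro a b hab
      have : a = b := Subsingleton.elim _ _
      subst this
      exact absurd hab (hT _ _ hab)
    · obtain ⟨a, c, hap, hac, huniq, hadj, htree'⟩ := leaf_data T hTree p (by omega)
      have hcardW' : Fintype.card ({a}ᶜ : Set W) = n := by
        rw [Fintype.card_compl_set]
        simp
        omega
      obtain ⟨f', hinj, hp, hpres⟩ := ih ({a}ᶜ : Set W) (fun x y => T x.1 y.1)
        (fun x y h => hT _ _ h) htree' hcardW' V A hA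
        (fun x => by obtain ⟨h1, h2⟩ := hdeg x; constructor <;> omega)
        ⟨p, by simpa using hap.symm⟩ v
      obtain ⟨f, h1, h2, h3⟩ := extend T hT a c hac huniq hadj A hA f' hinj hpres (by
        intro hc
        rw [hcard]
        exact hdeg _)
      refine ⟨f, h1, ?_, h3⟩
      rw [← hp, ← h2]


/-- vertex set of a union of directed triangles sharing one vertex -/
inductive TV (k : ℕ) : Type
  | v : TV k
  | q (i : Fin k) : TV k
  | r (i : Fin k) : TV k

/-- arcs of that graph -/
def TA (k : ℕ) : TV k → TV k → Prop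
  | .v, .q _ => True
  | .q i, .r j => i = j
  | .r _, .v => True
  | _, _ => False

instance (k : ℕ) : Finite (TV k) := by
  let F : TV k → Option (Fin k ⊕ Fin k) :=
    fun x => match x with
      | .v => none
      | .q i => some (Sum.inl i)
      | .r i => some (Sum.inr i)
  apply Finite.of_injective F
  intro x y h
  cases x <;> cases y <;> simp_all [F]

theorem TA_asymm (k : ℕ) (x y : TV k) (h : TA k x y) : ¬ TA k y x := by
  cases x <;> cases y <;> simp_all [TA]

theorem TA_deg (k : ℕ) (hk : 1 ≤ k) (x : TV k) : 1 ≤ outDeg (TA k) x ∧ 1 ≤ inDeg (TA k) x := by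
  have hcard : Fintype.card (Fin 1) = 1 := Fintype.card_fin 1
  cases x with
  | v =>
    constructor
    · conv_lhs => rw [← hcard]
      exact le_ncard _ (fun _ : Fin 1 => TV.q ⟨0, by omega⟩) (by intro a b _; exact Subsingleton.elim _ _)
        (by intro i; simp [TA])
    · conv_lhs => rw [← hcard]
      exact le_ncard _ (fun _ : Fin 1 => TV.r ⟨0, by omega⟩) (by intro a b _; exact Subsingleton.elim _ _)
        (by intro i; simp [TA])
  | q i =>
    constructor
    · conv_lhs => rw [← hcard]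
      exact le_ncard _ (fun _ : Fin 1 => TV.r i) (by intro a b _; exact Subsingleton.elim _ _)
        (by intro i; simp [TA])
    · conv_lhs => rw [← hcard]
      exact le_ncard _ (fun _ : Fin 1 => TV.v) (by intro a b _; exact Subsingleton.elim _ _)
        (by intro i; simp [TA])
  | r i =>
    constructor
    · conv_lhs => rw [← hcard]
      exact le_ncard _ (fun _ : Fin 1 => TV.v) (by intro a b _; exact Subsingleton.elim _ _)
        (by intro i; simp [TA])
    · conv_lhs => rw [← hcard]
      exact le_ncard _ (fun _ : Fin 1 => TV.q i) (by intro a b _; exact Subsingleton.elim _ _)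
        (by intro i; simp [TA])

theorem TA_v (k : ℕ) : k ≤ outDeg (TA k) .v ∧ k ≤ inDeg (TA k) .v := by
  have hcard : Fintype.card (Fin k) = k := Fintype.card_fin k
  constructor
  · conv_lhs => rw [← hcard]
    exact le_ncard _ (fun l : Fin k => TV.q l) (by intro a b h; simpa using h) (by intro i; simp [TA])
  · conv_lhs => rw [← hcard]
    exact le_ncard _ (fun l : Fin k => TV.r l) (by intro a b h; simpa using h) (by intro i; simp [TA])

theorem TA_free (k : ℕ) (hk : 4 ≤ k) (f : Fin (k+1) → TV k) (hf : Function.Injective f)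
    (hT : ∀ a b, TR k 2 a b → TA k (f a) (f b)) : False := by
  have key : ∀ (a b c : Fin (k+1)), b ≠ c → TR k 2 a b → TR k 2 a c → f a = TV.v := by
    intro a b c hbc h1 h2
    have h3 := hT _ _ h1
    have h4 := hT _ _ h2
    rcases ha : f a with _ | i | i
    · rfl
    · rw [ha] at h3 h4
      rcases hb : f b with _ | j | j <;> rw [hb] at h3 <;> simp [TA] at h3
      rcases hc : f c with _ | l | l <;> rw [hc] at h4 <;> simp [TA] at h4
      exfalso; apply hbc; apply hf; rw [hb, hc, ← h3, ← h4]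
    · rw [ha] at h3 h4
      rcases hb : f b with _ | j | j <;> rw [hb] at h3 <;> simp [TA] at h3
      rcases hc : f c with _ | l | l <;> rw [hc] at h4 <;> simp [TA] at h4
      exfalso; apply hbc; apply hf; rw [hb, hc]
  have h1 := key ⟨1, by omega⟩ ⟨0, by omega⟩ ⟨3, by omega⟩ (by simp) ⟨by simp, by simp⟩ ⟨by simp, by simp⟩
  have h2 := key ⟨2, by omega⟩ ⟨0, by omega⟩ ⟨4, by omega⟩ (by simp) ⟨by simp, by simp⟩ ⟨by simp, by simp⟩
  have := hf (h1.trans h2.symm)
  simp at this

theorem upper (k : ℕ) (V : Type) [Finite V] (A : V → V → Prop) (hA : ∀ x, ¬ A x x)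
    (hdeg : ∀ x, k ≤ outDeg A x + 1 ∧ k ≤ inDeg A x + 1)
    (hv : ∃ v, k ≤ outDeg A v ∧ k ≤ inDeg A v)
    (T : Fin (k+1) → Fin (k+1) → Prop) (hT : IsOrientedTree k T) : Contains A T := by
  classical
  obtain ⟨v, hv1, hv2⟩ := hv
  by_cases hk : k = 0
  · subst hk
    refine ⟨fun _ => v, fun a b _ => Fin.ext (by omega), ?_⟩
    intro a b hab
    have : a = b := Fin.ext (by omega)
    subst this
    exact absurd hab (hT.1 _ _ hab)
  · obtain ⟨a, c, _, hac, huniq, hadj, htree'⟩ := leaf_data T hT.2 0 (by simp; omega)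
    have hcardW' : Fintype.card ({a}ᶜ : Set (Fin (k+1))) = k := by
      rw [Fintype.card_compl_set]
      simp
    obtain ⟨f', hinj, hp, hpres⟩ := greedy k ({a}ᶜ : Set (Fin (k+1))) (fun x y => T x.1 y.1)
      (fun x y h => hT.1 _ _ h) htree' hcardW' V A hA hdeg ⟨c, by simpa using hac.symm⟩ v
    obtain ⟨f, h1, _, h3⟩ := extend T hT.1 a c hac huniq hadj A hA f' hinj hpres (by
      intro hc
      rw [hp, Fintype.card_fin]
      exact ⟨by omega, by omega⟩)
    exact ⟨f, h1, h3⟩

/-- admissibility of the threshold `t` at a fixed `k`, in a class `C` of digraphs -/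
def AdmAt (C : ∀ V : Type, (V → V → Prop) → Prop) (k : ℕ) (t : ℝ) : Prop :=
  ∀ (V : Type) [Finite V] (A : V → V → Prop), C V A → HostCond A k t →
    ∀ T : Fin (k+1) → Fin (k+1) → Prop, IsOrientedTree k T → Contains A T

theorem hostCond_floor {V : Type} (A : V → V → Prop) (k : ℕ) (t : ℝ)
    (h : HostCond A k (⌊t⌋₊ : ℝ)) : HostCond A k t := by
  refine ⟨fun x => ?_, h.2⟩
  obtain ⟨h1, h2⟩ := h.1 x
  have key : ∀ d : ℕ, (⌊t⌋₊ : ℝ) < (d : ℝ) → t < d := by
    intro d hd
    have hd' : ⌊t⌋₊ < d := by exact_mod_cast hd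
    exact (Nat.floor_lt' (by omega)).1 hd'
  exact ⟨key _ h1, key _ h2⟩

theorem least_exists (C : ∀ V : Type, (V → V → Prop) → Prop)
    (hC : ∀ V A, C V A → ∀ x, ¬ A x x) :
    ∃ F : ℕ → ℕ, IsLeast {f : ℕ → NNReal | ∀ k, AdmAt C k (f k)} (fun k => (F k : NNReal)) ∧
      (∀ k, F k ≤ k - 2) ∧ (∀ k, AdmAt C k (F k)) := by
  classical
  have hup : ∀ k, AdmAt C k ((k - 2 : ℕ) : ℝ) := by
    intro k V _ A hCA hH T hT
    refine upper k V A (hC V A hCA) ?_ hH.2 T hT
    intro x
    obtain ⟨h1, h2⟩ := hH.1 x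
    have h1' : k - 2 < outDeg A x := by exact_mod_cast h1
    have h2' : k - 2 < inDeg A x := by exact_mod_cast h2
    omega
  have hne : ∀ k, ∃ t : ℕ, AdmAt C k (t : ℝ) := fun k => ⟨_, hup k⟩
  refine ⟨fun k => Nat.find (hne k), ⟨?_, ?_⟩, ?_, ?_⟩
  · intro k
    have := Nat.find_spec (hne k)
    simpa using this
  · intro f hf k
    have h1 : AdmAt C k ((⌊(f k : ℝ)⌋₊ : ℕ) : ℝ) := by
      intro V _ A hCA hH T hT
      exact hf k V A hCA (hostCond_floor A k _ hH) T hT
    have h2 := Nat.find_min' (hne k) h1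
    have h3 : ((⌊(f k : ℝ)⌋₊ : ℕ) : ℝ) ≤ (f k : ℝ) := Nat.floor_le (f k).2
    have h4 : ((Nat.find (hne k) : ℕ) : ℝ) ≤ ((⌊(f k : ℝ)⌋₊ : ℕ) : ℝ) := by exact_mod_cast h2
    rw [← NNReal.coe_le_coe]
    simpa using h4.trans h3
  · intro k
    exact Nat.find_min' (hne k) (hup k)
  · intro k
    exact Nat.find_spec (hne k)

theorem lower_oriented (k s m : ℕ) (hs : 1 ≤ s) (hsk : s < k) (hm2 : 2 ≤ m) (hm : m + s + (k-1)/s = k) (t : ℕ)
    (h : AdmAt (fun V A => ∀ x y : V, A x y → ¬ A y x) k (t : ℝ)) : m ≤ t := by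
  by_contra hlt
  push Not at hlt
  obtain ⟨f, hf, hp⟩ := h (OV k m) (OA k m) (OA_asymm k m) ⟨fun x => by
      obtain ⟨h1, h2⟩ := OA_deg k m hm2 (by omega) x
      constructor
      · exact_mod_cast (lt_of_lt_of_le hlt h1)
      · exact_mod_cast (lt_of_lt_of_le hlt h2),
    ⟨OV.v, OA_v k m k hm2 (by nlinarith)⟩⟩ (TR k s) ⟨TR_asymm k s, TR_isTree k s hs hsk.le⟩
  exact OA_free k m k s hs hsk hm f hf hp

theorem lower_oriented_one (k : ℕ) (hk : 4 ≤ k) (t : ℕ)
    (h : AdmAt (fun V A => ∀ x y : V, A x y → ¬ A y x) k (t : ℝ)) : 1 ≤ t := by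
  by_contra hlt
  push Not at hlt
  obtain ⟨f, hf, hp⟩ := h (TV k) (TA k) (TA_asymm k) ⟨fun x => by
      obtain ⟨h1, h2⟩ := TA_deg k (by omega) x
      constructor
      · exact_mod_cast (lt_of_lt_of_le hlt h1)
      · exact_mod_cast (lt_of_lt_of_le hlt h2),
    ⟨TV.v, TA_v k⟩⟩ (TR k 2) ⟨TR_asymm k 2, TR_isTree k 2 (by omega) (by omega)⟩
  exact TA_free k hk f hf hp

theorem lower_digraph (k u : ℕ) (hu : k ≤ u * (u - 1)) (t : ℕ)
    (h : AdmAt (fun V A => ∀ x : V, ¬ A x x) k (t : ℝ)) : k ≤ t + u := by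
  by_contra hlt
  push Not at hlt
  obtain ⟨m, hm⟩ : ∃ m, k = m + u := ⟨k - u, by omega⟩
  have hm1 : 1 ≤ m := by omega
  have hu2 : 2 ≤ u := by
    by_contra hc
    have : u = 0 ∨ u = 1 := by omega
    rcases this with h | h <;> subst h <;> simp at hu <;> omega
  obtain ⟨w, hw⟩ : ∃ w, u = w + 2 := ⟨u - 2, by omega⟩
  have hq : (k-1)/u + 2 ≤ u := by
    have h1 : (k-1)/u < u - 1 := by
      rw [Nat.div_lt_iff_lt_mul (by omega)]
      have : u * (u-1) = (u-1) * u := Nat.mul_comm _ _
      omega
    omega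
  obtain ⟨f, hf, hp⟩ := h (DV m u) (DA m u) (DA_irrefl m u) ⟨fun x => by
      obtain ⟨h1, h2⟩ := DA_deg m u hm1 x
      constructor
      · exact_mod_cast (lt_of_lt_of_le (by omega) h1)
      · exact_mod_cast (lt_of_lt_of_le (by omega) h2),
    ⟨DV.v, by rw [hm]; exact DA_v m u hm1⟩⟩ (TR k u) ⟨TR_asymm k u, TR_isTree k u (by omega) (by omega)⟩
  exact DA_free m u k u hm1 (by omega) le_rfl hm hq f hf hp


theorem lower_oriented_all (k : ℕ) (hk : 1 ≤ k) (N : ℕ) (hN : 4 * k ≤ N ^ 2) (t : ℕ)
    (h : AdmAt (fun V A => ∀ x y : V, A x y → ¬ A y x) k (t : ℝ)) : k + 1 ≤ t + N := by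
  by_contra hlt
  push Not at hlt
  -- write N = 2 a or 2 a + 1
  have hN2 : 2 ≤ N := by
    by_contra hc
    have : N ≤ 1 := by omega
    have : N ^ 2 ≤ 1 := by nlinarith
    omega
  obtain ⟨a, ha⟩ : ∃ a, N = 2 * a ∨ N = 2 * a + 1 := ⟨N / 2, by omega⟩
  have ha1 : 1 ≤ a := by omega
  have hmul : k ≤ a * (N - a) := by
    rcases ha with ha | ha
    · subst ha
      have : 2 * a - a = a := by omega
      rw [this]; nlinarith
    · subst ha
      have : 2 * a + 1 - a = a + 1 := by omega
      rw [this]; nlinarith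
  have hq : (k-1)/a + 1 ≤ N - a := by
    have h1 : (k-1)/a < N - a := by
      rw [Nat.div_lt_iff_lt_mul (by omega)]
      have : a * (N - a) = (N - a) * a := Nat.mul_comm _ _
      omega
    omega
  by_cases h2 : 2 ≤ k - a - (k-1)/a
  · have := lower_oriented k a (k - a - (k-1)/a) ha1 (by omega) h2 (by omega) t h
    omega
  · have hk4 : 4 ≤ k := by
      by_contra hc
      have hk3 : k ≤ 3 := by omega
      have : k + 1 ≤ N := by
        by_contra hN3
        have : N ≤ k := by omega
        have : N ^ 2 ≤ k ^ 2 := Nat.pow_le_pow_left this 2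
        have : k ^ 2 ≤ 3 * k := by nlinarith
        omega
      omega
    have := lower_oriented_one k hk4 t h
    omega

/-- **Main result.** There are least admissible functions `F` (oriented graphs) and `G` (digraphs), and
they satisfy the stated bounds; in particular both are asymptotic to `k`. -/
theorem result :
    ∃ F G : ℕ → ℕ,
      IsLeast {f : ℕ → NNReal | AdmissibleOriented (fun k => (f k : ℝ))} (fun k => (F k : NNReal)) ∧
      IsLeast {f : ℕ → NNReal | AdmissibleDigraphs (fun k => (f k : ℝ))} (fun k => (G k : NNReal)) ∧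
      (∀ k : ℕ, 1 ≤ k → (k : ℤ) + 1 - ⌈2 * Real.sqrt k⌉ ≤ F k) ∧
      (∀ k : ℕ, 1 ≤ k → (k : ℤ) - ⌈1 / 2 + Real.sqrt (k + 1 / 4)⌉ ≤ G k) ∧
      (∀ k : ℕ, F k ≤ G k ∧ G k ≤ k - 2) ∧
      Filter.Tendsto (fun k : ℕ => (F k : ℝ) / k) Filter.atTop (nhds 1) ∧
      Filter.Tendsto (fun k : ℕ => (G k : ℝ) / k) Filter.atTop (nhds 1) := by
  obtain ⟨F, hF, _, hF1⟩ := least_exists (fun V A => ∀ x y : V, A x y → ¬ A y x)
    (fun V A h x hx => h x x hx hx)
  obtain ⟨G, hG, hG2, hG1⟩ := least_exists (fun V A => ∀ x : V, ¬ A x x) (fun V A h => h)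
  have hFG : ∀ k, F k ≤ G k := by
    intro k
    have h1 : (fun k => (G k : NNReal)) ∈
        {f : ℕ → NNReal | ∀ k, AdmAt (fun V A => ∀ x y : V, A x y → ¬ A y x) k (f k)} := by
      intro k V _ A hA hH T hT
      exact hG1 k V A (fun x hx => hA x x hx hx) (by simpa using hH) T hT
    have h2 := hF.2 h1 k
    simpa using h2
  have hFb : ∀ k : ℕ, 1 ≤ k → (k : ℤ) + 1 - ⌈2 * Real.sqrt k⌉ ≤ F k := by
    intro k hk
    have h0 : 0 ≤ 2 * Real.sqrt k := by positivity
    obtain ⟨N, hN⟩ : ∃ N : ℕ, ⌈2 * Real.sqrt k⌉ = (N : ℤ) :=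
      ⟨⌈2 * Real.sqrt k⌉.toNat, by rw [Int.toNat_of_nonneg (Int.ceil_nonneg h0)]⟩
    have h1 : 2 * Real.sqrt k ≤ (N : ℝ) := by
      have := Int.le_ceil (2 * Real.sqrt k)
      rw [hN] at this
      exact_mod_cast this
    have h2 : (4 * k : ℝ) ≤ (N : ℝ) ^ 2 := by
      have h3 : (2 * Real.sqrt k) ^ 2 ≤ (N : ℝ) ^ 2 := by
        apply pow_le_pow_left₀ h0 h1
      rw [mul_pow, Real.sq_sqrt (by positivity)] at h3
      linarith
    have h3 : 4 * k ≤ N ^ 2 := by exact_mod_cast h2
    have h4 := lower_oriented_all k hk N h3 (F k) (hF1 k)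
    rw [hN]
    omega
  have hGb : ∀ k : ℕ, 1 ≤ k → (k : ℤ) - ⌈1 / 2 + Real.sqrt (k + 1 / 4)⌉ ≤ G k := by
    intro k hk
    have h0 : 0 ≤ 1 / 2 + Real.sqrt (k + 1 / 4) := by positivity
    obtain ⟨N, hN⟩ : ∃ N : ℕ, ⌈1 / 2 + Real.sqrt (k + 1 / 4)⌉ = (N : ℤ) :=
      ⟨⌈1 / 2 + Real.sqrt (k + 1 / 4)⌉.toNat, by rw [Int.toNat_of_nonneg (Int.ceil_nonneg h0)]⟩
    have h1 : 1 / 2 + Real.sqrt (k + 1 / 4) ≤ (N : ℝ) := by
      have := Int.le_ceil (1 / 2 + Real.sqrt (k + 1 / 4))
      rw [hN] at this
      exact_mod_cast this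
    have h2 : (k : ℝ) ≤ (N : ℝ) * (N - 1) := by
      have h3 : Real.sqrt (k + 1 / 4) ≤ (N : ℝ) - 1 / 2 := by linarith
      have h4 : (Real.sqrt (k + 1 / 4)) ^ 2 ≤ ((N : ℝ) - 1 / 2) ^ 2 := by
        apply pow_le_pow_left₀ (Real.sqrt_nonneg _) h3
      rw [Real.sq_sqrt (by positivity)] at h4
      nlinarith
    have hN1 : 1 ≤ N := by
      by_contra hc
      have : N = 0 := by omega
      rw [this] at h1
      have := Real.sqrt_nonneg ((k : ℝ) + 1 / 4)
      norm_num at h1
      linarith
    have h3 : k ≤ N * (N - 1) := by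
      have : ((N - 1 : ℕ) : ℝ) = (N : ℝ) - 1 := by
        rw [Nat.cast_sub hN1]; simp
      have h5 : ((k : ℕ) : ℝ) ≤ ((N * (N - 1) : ℕ) : ℝ) := by
        rw [Nat.cast_mul, this]; exact h2
      exact_mod_cast h5
    have h4 := lower_digraph k N h3 (G k) (hG1 k)
    rw [hN]
    omega
  have hlow : ∀ k : ℕ, 1 ≤ k → 1 - 2 / Real.sqrt k ≤ (F k : ℝ) / k := by
    intro k hk
    have hkpos : (0 : ℝ) < k := by exact_mod_cast hk
    have h1 := hFb k hk
    have h2 : (⌈2 * Real.sqrt k⌉ : ℝ) < 2 * Real.sqrt k + 1 := Int.ceil_lt_add_one _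
    have h3 : (k : ℝ) + 1 - (⌈2 * Real.sqrt k⌉ : ℝ) ≤ (F k : ℝ) := by exact_mod_cast h1
    rw [le_div_iff₀ hkpos]
    have h4 : Real.sqrt k * Real.sqrt k = k := Real.mul_self_sqrt hkpos.le
    have h5 : 0 < Real.sqrt k := Real.sqrt_pos.2 hkpos
    have h6 : 2 / Real.sqrt k * k = 2 * Real.sqrt k := by
      rw [div_mul_eq_mul_div, div_eq_iff h5.ne']
      nlinarith
    nlinarith
  have hlim : Filter.Tendsto (fun k : ℕ => 1 - 2 / Real.sqrt k) Filter.atTop (nhds 1) := by
    have h1 : Filter.Tendsto (fun k : ℕ => Real.sqrt k) Filter.atTop Filter.atTop :=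
      Real.tendsto_sqrt_atTop.comp tendsto_natCast_atTop_atTop
    have h2 : Filter.Tendsto (fun k : ℕ => 2 / Real.sqrt k) Filter.atTop (nhds 0) :=
      Filter.Tendsto.const_div_atTop h1 2
    simpa using h2.const_sub 1
  have hGle : ∀ k : ℕ, 1 ≤ k → (G k : ℝ) / k ≤ 1 := by
    intro k hk
    have hkpos : (0 : ℝ) < k := by exact_mod_cast hk
    rw [div_le_one hkpos]
    have := hG2 k
    have : G k ≤ k := by omega
    exact_mod_cast this
  have hFGr : ∀ k : ℕ, 1 ≤ k → (F k : ℝ) / k ≤ (G k : ℝ) / k := by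
    intro k hk
    have hkpos : (0 : ℝ) < k := by exact_mod_cast hk
    have : (F k : ℝ) ≤ G k := by exact_mod_cast hFG k
    gcongr
  refine ⟨F, G, hF, hG, hFb, hGb, fun k => ⟨hFG k, hG2 k⟩, ?_, ?_⟩
  · refine tendsto_of_tendsto_of_tendsto_of_le_of_le' hlim tendsto_const_nhds ?_ ?_
    · filter_upwards [Filter.eventually_ge_atTop 1] with k hk using hlow k hk
    · filter_upwards [Filter.eventually_ge_atTop 1] with k hk using (hFGr k hk).trans (hGle k hk)
  · refine tendsto_of_tendsto_of_tendsto_of_le_of_le' hlim tendsto_const_nhds ?_ ?_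
    · filter_upwards [Filter.eventually_ge_atTop 1] with k hk using (hlow k hk).trans (hFGr k hk)
    · filter_upwards [Filter.eventually_ge_atTop 1] with k hk using hGle k hk

end Pool.Agent.Results.MP_47458b_co.LeastThreshold
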